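import Mathlib
import Pool.Agent.TH545.CF.EndB
import Pool.Agent.TH716.CF.KeyB
import Pool.Agent.TH716.CF.Bd
import Pool.Agent.TH98.CF.Final

set_option autoImplicit false

/-! Several general collisions at once, in every characteristic. -/

namespace Pool.Agent.Y939.SC

open Polynomial Pool.Agent.H932R2 Pool.Agent.H932R3 Pool.Agent.TH545.CF

universe u v

section transfer
variable {ι : Type} {r : ι → ℕ}

/-- the values of all parameters -/
def par {K : Type v} (c : ι → K) (a : ∀ i, Fin (r i) → K) (q : Σ i, Fin (r i + 1)) : K :=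
  (Fin.cons (c q.1) (a q.1) : Fin (r q.1 + 1) → K) q.2

theorem aeval_rename_mk {K : Type v} [Field K] (c : ι → K) (a : ∀ i, Fin (r i) → K) (i : ι)
    (f : MvPolynomial (Fin (r i + 1)) ℤ) :
    MvPolynomial.aeval (par c a) (MvPolynomial.rename (Sigma.mk i) f) =
      MvPolynomial.aeval (Fin.cons (c i) (a i) : Fin (r i + 1) → K) f := by
  rw [MvPolynomial.aeval_rename]
  rfl

/-- the ideal of the union of the collisions -/
noncomputable def jets {K : Type v} [Field K] (m : ι → ℕ) (c : ι → K) (a : ∀ i, Fin (r i) → K) :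
    Ideal K[X][X] := ⨅ i, jetIdeal (m i) (c i) (a i)

theorem mem_jets_iff {K : Type v} [Field K] {m : ι → ℕ} {c : ι → K} {a : ∀ i, Fin (r i) → K}
    {f : K[X][X]} : f ∈ jets m c a ↔ ∀ i, f ∈ jetIdeal (m i) (c i) (a i) := by
  unfold jets
  rw [Ideal.mem_iInf]

theorem mem_jets {K : Type v} [Field K] {m : ι → ℕ} {c : ι → K} {a : ∀ i, Fin (r i) → K} {N : ℕ}
    (e : Fin N → ℕ × ℕ) (v : Fin N → K) :
    (∑ s, v s • mon K (e s)) ∈ jets m c a ↔
      ∀ q : Σ i, EE (r i) (m i), ∑ s, MvPolynomial.aeval (par c a)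
        (MvPolynomial.rename (Sigma.mk q.1) (entC (r q.1) q.2.1 (e s))) * v s = 0 := by
  rw [mem_jets_iff]
  constructor
  · rintro h ⟨i, q⟩
    have h1 := (mem_jetIdeal e v).1 (h i) q
    rw [← h1]
    exact Finset.sum_congr rfl fun s _ => by rw [aeval_rename_mk]
  · intro h i
    rw [mem_jetIdeal]
    intro q
    rw [← h ⟨i, q⟩]
    exact Finset.sum_congr rfl fun s _ => by rw [aeval_rename_mk]

/-- emptiness passes from one union of collisions to general ones over every field of the same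
characteristic -/
theorem transfer {K : Type v} [Field K] {L : Type u} [Field L] (p : ℕ) [CharP K p]
    [CharP L p] {m : ι → ℕ} {d : ℕ} {c0 : ι → K} {a0 : ∀ i, Fin (r i) → K}
    (h : NoForm (jets m c0 a0) d) :
    ∃ F : MvPolynomial (Σ i, Fin (r i + 1)) L, F ≠ 0 ∧
      ∀ (c : ι → L) (a : ∀ i, Fin (r i) → L), MvPolynomial.eval (par c a) F ≠ 0 →
        NoForm (jets m c a) d := by
  classical
  obtain ⟨b, hb⟩ := Pool.Agent.TH15.Nag.exists_rows
    (fun (q : Σ i, EE (r i) (m i)) (s : Fin (Tfin d).card) =>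
      MvPolynomial.aeval (par c0 a0)
        (MvPolynomial.rename (Sigma.mk q.1) (entC (r q.1) q.2.1 (enumM (Tfin d) s)))) (by
    intro v hv
    exact noForm_iff'.1 h v ((mem_jets _ v).2 hv))
  let D : MvPolynomial (Σ i, Fin (r i + 1)) ℤ :=
    (Matrix.of fun (j s : Fin (Tfin d).card) => MvPolynomial.rename (Sigma.mk (b j).1)
      (entC (r (b j).1) (b j).2.1 (enumM (Tfin d) s))).det
  have hDK : MvPolynomial.aeval (par c0 a0) D ≠ 0 := by
    intro h0
    apply hb
    rw [← h0]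
    show _ = (MvPolynomial.aeval (par c0 a0)) (Matrix.det _)
    rw [AlgHom.map_det]
    rfl
  refine ⟨MvPolynomial.map (Int.castRingHom L) D, ?_, fun c a hc => ?_⟩
  · intro h1
    apply hDK
    have h2 : ∀ α, ((MvPolynomial.coeff α D : ℤ) : K) = 0 := by
      intro α
      have h3 := congrArg (MvPolynomial.coeff α) h1
      rw [MvPolynomial.coeff_map, MvPolynomial.coeff_zero, eq_intCast,
        CharP.intCast_eq_zero_iff L p] at h3
      rw [CharP.intCast_eq_zero_iff K p]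
      exact h3
    have h3 : MvPolynomial.map (Int.castRingHom K) D = 0 := by
      ext α
      rw [MvPolynomial.coeff_map, MvPolynomial.coeff_zero]
      exact h2 α
    have h4 : MvPolynomial.aeval (par c0 a0) D =
        MvPolynomial.eval (par c0 a0) (MvPolynomial.map (Int.castRingHom K) D) := by
      rw [MvPolynomial.eval_map, MvPolynomial.aeval_def]
      congr 1
    rw [h4, h3, map_zero]
  · have hdet : (Matrix.of fun (j s : Fin (Tfin d).card) =>
        MvPolynomial.aeval (par c a) (MvPolynomial.rename (Sigma.mk (b j).1)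
          (entC (r (b j).1) (b j).2.1 (enumM (Tfin d) s)))).det ≠ 0 := by
      intro h0
      apply hc
      have h4 : MvPolynomial.eval (par c a) (MvPolynomial.map (Int.castRingHom L) D) =
          MvPolynomial.aeval (par c a) D := by
        rw [MvPolynomial.eval_map, MvPolynomial.aeval_def]
        congr 1
      rw [h4, ← h0]
      show (MvPolynomial.aeval (par c a)) (Matrix.det _) = _
      rw [AlgHom.map_det]
      rfl
    refine noForm_iff'.2 fun v hv => ?_
    rw [mem_jets] at hv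
    apply Matrix.eq_zero_of_mulVec_eq_zero hdet
    funext j
    rw [Matrix.mulVec, dotProduct, Pi.zero_apply]
    exact hv (b j)

end transfer

section key
open Pool.Agent.TH716.CF Pool.Agent.TH603.EL

theorem coll_gen_all {L : Type} [Field L] {R : Type} [CommRing R] {ι : Type} {r m : ι → ℕ}
    (inc : L →+* R) (U : ZMod 3 → R) {V : R} (hV : V * U 0 = 1)
    (ψ : ι → (R →+* PowerSeries L)) (hinc : ∀ i c, ψ i (inc c) = PowerSeries.C c)
    (hx : ∀ i, PowerSeries.coeff 1 (ψ i (V * U 1)) ≠ 0) {d : ℕ} {I : ι → Ideal R}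
    (hI : ∀ i, J (ψ i) (r i) ^ m i ≤ I i)
    (hE : ∀ g : MvPolynomial (ZMod 3) L, g.IsHomogeneous d → g ≠ 0 →
      ¬ ∀ i, MvPolynomial.eval₂Hom inc U g ∈ I i) :
    ∃ (c : ι → L) (a : ∀ i, Fin (r i) → L), NoForm (jets m c a) d := by
  have h0 : ∀ i, ∃ (c : L) (q : L[X]), q.degree < r i ∧
      (Ideal.span {X - C q, C ((X - C c) ^ r i)} : Ideal L[X][X]) ≤
        J ((ψ i).comp (eval₂RingHom (eval₂RingHom inc (V * U 1)) (V * U 2))) (r i) := fun i =>
    graph_ideal inc (V * U 1) (V * U 2) (ψ i) (hinc i) (hx i) (r i)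
  choose c q hq hle using h0
  refine ⟨c, fun i j => (q i).coeff j, ?_⟩
  intro P hP hIP
  have hIP' := mem_jets_iff.1 hIP
  rw [MvPolynomial.mem_homogeneousSubmodule] at hP
  by_contra hne
  have hqs : ∀ i, (∑ j : Fin (r i), C ((q i).coeff j) * X ^ (j : ℕ) : L[X]) = q i := by
    intro i
    rw [Fin.sum_univ_eq_sum_range (fun j => C ((q i).coeff j) * X ^ j : ℕ → L[X]) (r i)]
    by_cases hq0 : q i = 0
    · rw [hq0]; simp
    · exact (as_sum_range_C_mul_X_pow' _ ((natDegree_lt_iff_degree_lt hq0).2 (hq i))).symm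
  have hhom : (MvPolynomial.rename cyc P).IsHomogeneous d := hP.rename_isHomogeneous
  refine hE _ hhom ?_ ?_
  · intro h3
    exact hne (MvPolynomial.rename_injective _ cyc.injective (by rw [h3, map_zero]))
  · intro i
    have h1 := hIP' i
    unfold jetIdeal at h1
    simp only [hqs] at h1
    have h2 := transfer0 (ψ i) (eval₂RingHom (eval₂RingHom inc (V * U 1)) (V * U 2))
      (Ideal.pow_right_mono (hle i) (m i) h1)
    have h5 : deh L P = (MvPolynomial.aeval ![C X, X, 1] :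
        MvPolynomial (Fin 3) L →ₐ[L] L[X][X]) P := rfl
    rw [h5, cyc_eq inc U hV, Pool.Agent.TH716.CF.eval_smul hhom] at h2
    have h4 : MvPolynomial.eval₂Hom inc U (MvPolynomial.rename cyc P) =
        U 0 ^ d * (V ^ d * MvPolynomial.eval₂Hom inc U (MvPolynomial.rename cyc P)) := by
      rw [← mul_assoc, ← mul_pow, mul_comm (U 0) V, hV, one_pow, one_mul]
    rw [h4]
    exact (I i).mul_mem_left _ (hI i h2)

theorem key_several {p : ℕ} {ι : Type} {r m : ι → ℕ} {d : ℕ} {τ : ℝ} (h0 : 0 < τ) (h1 : τ < 1)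
    (h : EmpG p r m (Tri d τ)) :
    ∃ (L : Type) (_ : Field L) (_ : CharP L p) (c : ι → L) (a : ∀ i, Fin (r i) → L),
      NoForm (jets m c a) d := by
  obtain ⟨K, _, _, φ, hφ, hE⟩ := key_general h0 h1 h
  obtain ⟨V, hV⟩ : ∃ V : HR K, V * tube K τ (3 * d + 4) 0 = 1 := by
    rw [tube_zero]
    obtain ⟨u, hu⟩ := theta0_isUnit (K := K) h0 h1
    exact ⟨↑u⁻¹, by rw [← hu]; exact Units.inv_mul u⟩
  have hx : ∀ i, PowerSeries.coeff 1 (hat (φ i) (V * tube K τ (3 * d + 4) 1)) ≠ 0 := by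
    intro i
    rw [tube_one]
    exact x_der_ne h0 h1 (hφ i) (by rw [← tube_zero K τ (3 * d + 4)]; exact hV)
  have hle : ∀ i, J (hat (φ i)) (r i) ^ m i ≤ CI (J (φ i) (r i) ^ m i) := by
    intro i
    rw [J_hat]
    exact CI_pow_le _ _
  exact ⟨HK K, inferInstance, inferInstance,
    coll_gen_all incl (tube K τ (3 * d + 4)) hV (fun i => hat (φ i))
      (fun i => hat_incl (hφ i).const) hx hle
      fun g hg hne hmem => hE g hg hne fun i a => hmem i a⟩

end key

section arith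
variable {ι : Type} [Fintype ι]

/-- the numerical condition -/
def Cond (r m : ι → ℕ) (d : ℕ) : Prop :=
  (9 ≤ ∑ i, r i ∧ Real.sqrt ((∑ i, r i : ℕ) : ℝ) * d < ((∑ i, r i * m i : ℕ) : ℝ)) ∨
    (9 < ∑ i, r i ∧ Real.sqrt ((∑ i, r i : ℕ) : ℝ) * d ≤ ((∑ i, r i * m i : ℕ) : ℝ))

theorem Cond.nine {r m : ι → ℕ} {d : ℕ} (h : Cond r m d) : 9 ≤ ∑ i, r i := by
  rcases h with h | h
  · exact h.1
  · exact h.1.le

theorem Cond.le {r m : ι → ℕ} {d : ℕ} (h : Cond r m d) :
    Real.sqrt ((∑ i, r i : ℕ) : ℝ) * d ≤ ((∑ i, r i * m i : ℕ) : ℝ) := by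
  rcases h with h | h
  · exact h.2.le
  · exact h.2

theorem Cond.bdd {r m : ι → ℕ} {d : ℕ} (h : Cond r m d) : d ≤ ∑ i, r i * m i := by
  have h1 := h.le
  have h2 : (1 : ℝ) ≤ Real.sqrt ((∑ i, r i : ℕ) : ℝ) := by
    rw [Real.one_le_sqrt]
    exact_mod_cast (by have := h.nine; omega : 1 ≤ ∑ i, r i)
  have h3 : (0 : ℝ) ≤ d := Nat.cast_nonneg d
  have h4 : (d : ℝ) ≤ ((∑ i, r i * m i : ℕ) : ℝ) := by nlinarith
  exact_mod_cast h4

/-- either the inequality is strict or the number of points is a square -/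
theorem Cond.cases {r m : ι → ℕ} {d : ℕ} (hS : 0 < ∑ i, r i * m i) (h : Cond r m d) :
    (9 ≤ ∑ i, r i ∧ Real.sqrt ((∑ i, r i : ℕ) : ℝ) * d < ((∑ i, r i * m i : ℕ) : ℝ)) ∨
      ∃ k : ℕ, 4 ≤ k ∧ ∑ i, r i = k ^ 2 ∧ 0 < d ∧ k * d ≤ ∑ i, r i * m i := by
  rcases h with h | ⟨h9, h⟩
  · exact Or.inl h
  rcases lt_or_eq_of_le h with h' | h'
  · exact Or.inl ⟨h9.le, h'⟩
  right
  obtain ⟨n, hn⟩ : ∃ n, n = ∑ i, r i := ⟨_, rfl⟩
  obtain ⟨S, hSd⟩ : ∃ S, S = ∑ i, r i * m i := ⟨_, rfl⟩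
  rw [← hn, ← hSd] at h'
  rw [← hSd] at hS
  rw [← hn] at h9
  have hd : 0 < d := by
    rcases Nat.eq_zero_or_pos d with h0 | h0
    · rw [h0, Nat.cast_zero, mul_zero] at h'
      have : S = 0 := by exact_mod_cast h'.symm
      omega
    · exact h0
  have h1 : (n : ℝ) * (d : ℝ) ^ 2 = (S : ℝ) ^ 2 := by
    rw [← h', mul_pow, Real.sq_sqrt (Nat.cast_nonneg n)]
  have h2 : n * d ^ 2 = S ^ 2 := by exact_mod_cast h1
  obtain ⟨k, hk⟩ := (Nat.pow_dvd_pow_iff (by norm_num : (2 : ℕ) ≠ 0)).1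
    (⟨n, by rw [mul_comm, h2]⟩ : d ^ 2 ∣ S ^ 2)
  have h3 : n = k ^ 2 := by
    have h4 : d ^ 2 * n = d ^ 2 * k ^ 2 := by rw [mul_comm, h2, hk]; ring
    exact Nat.eq_of_mul_eq_mul_left (by positivity) h4
  refine ⟨k, ?_, by rw [← hn, h3], hd, by rw [← hSd, hk, mul_comm]⟩
  by_contra hcon
  have : k ≤ 3 := by omega
  have : k ^ 2 ≤ 9 := by nlinarith
  omega

theorem exists_config {p : ℕ} (hp : p = 0 ∨ p.Prime) {r m : ι → ℕ} (hr : ∀ i, 1 ≤ r i) {d : ℕ}
    (hS : 0 < ∑ i, r i * m i) (h : Cond r m d) :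
    ∃ (L : Type) (_ : Field L) (_ : CharP L p) (c : ι → L) (a : ∀ i, Fin (r i) → L),
      NoForm (jets m c a) d := by
  rcases h.cases hS with ⟨h9, h1⟩ | ⟨k, hk, hkr, hd, h1⟩
  · obtain ⟨τ, h0, h2, hE⟩ := Pool.Agent.TH716.CF.strict @Pool.Agent.TH98.CF.EmpG_final hp
      (ι := ι) (r := r) (w := m) (d := d) hr h9 h1
    exact key_several h0 h2 hE
  · obtain ⟨τ, h0, h2, hE⟩ := Pool.Agent.TH716.CF.boundary @Pool.Agent.TH98.CF.EmpG_final hp
      (ι := ι) (r := r) (w := m) (d := d) hr hk hkr hd h1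
    exact key_several h0 h2 hE

/-- general unions of collisions -/
theorem main {r m : ι → ℕ} (hr : ∀ i, 1 ≤ r i) (hm : ∃ i, 0 < m i) (k : Type u) [Field k] :
    ∃ F : MvPolynomial (Σ i, Fin (r i + 1)) k, F ≠ 0 ∧
      ∀ (c : ι → k) (a : ∀ i, Fin (r i) → k), MvPolynomial.eval (par c a) F ≠ 0 →
        ∀ d : ℕ, Cond r m d → NoForm (jets m c a) d := by
  classical
  obtain ⟨p, hp⟩ := CharP.exists k
  have hp' : p = 0 ∨ p.Prime := (CharP.char_is_prime_or_zero k p).symm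
  have hS : 0 < ∑ i, r i * m i := by
    obtain ⟨i, hi⟩ := hm
    exact lt_of_lt_of_le (Nat.mul_pos (hr i) hi)
      (Finset.single_le_sum (f := fun i => r i * m i) (fun _ _ => Nat.zero_le _)
        (Finset.mem_univ i))
  by_cases hex : ∃ d, Cond r m d
  · obtain ⟨d₀, hd₀⟩ := hex
    obtain ⟨D, hD⟩ : ∃ D, D = Nat.findGreatest (fun d => Cond r m d) (∑ i, r i * m i) := ⟨_, rfl⟩
    have hDc : Cond r m D := by
      rw [hD]
      exact Nat.findGreatest_spec (P := fun d => Cond r m d) hd₀.bdd hd₀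
    obtain ⟨L, _, _, c0, a0, h0⟩ := exists_config hp' hr hS hDc
    obtain ⟨F, hF, hF'⟩ := transfer (L := k) p h0
    refine ⟨F, hF, fun c a hc d hd => (hF' c a hc).mono ?_⟩
    rw [hD]
    exact Nat.le_findGreatest hd.bdd hd
  · exact ⟨1, one_ne_zero, fun c a _ d hd => absurd ⟨d, hd⟩ hex⟩

end arith

end Pool.Agent.Y939.SC
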