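import Mathlib
import Pool.Agent.Y939.SC.Several

set_option autoImplicit false

/-! Generic unions of collisions: least degrees and Waldschmidt constants. -/

namespace Pool.Agent.Y939.SC

open Polynomial Filter Topology Pool.Agent.H932R2 Pool.Agent.H932R3 Pool.Agent.TH545.CF

universe u v

section transfer
variable {ι : Type} {r : ι → ℕ}

/-- emptiness passes from one union of collisions to generic ones over every field of the same
characteristic -/
theorem transfer_generic {K : Type v} [Field K] {L : Type u} [Field L] (p : ℕ) [CharP K p]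
    [CharP L p] {m : ι → ℕ} {d : ℕ} {c0 : ι → K} {a0 : ∀ i, Fin (r i) → K}
    (h : NoForm (jets m c0 a0) d) {c : ι → L} {a : ∀ i, Fin (r i) → L}
    (hP : AlgebraicIndependent (⊥ : Subfield L) (par c a)) : NoForm (jets m c a) d := by
  classical
  obtain ⟨b, hb⟩ := Pool.Agent.TH15.Nag.exists_rows
    (fun (q : Σ i, EE (r i) (m i)) (s : Fin (Tfin d).card) =>
      MvPolynomial.aeval (par c0 a0)
        (MvPolynomial.rename (Sigma.mk q.1) (entC (r q.1) q.2.1 (enumM (Tfin d) s)))) (by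
    intro v hv
    exact noForm_iff'.1 h v ((mem_jets _ v).2 hv))
  let D : MvPolynomial (Σ i, Fin (r i + 1)) ℤ :=
    (Matrix.of fun (j s : Fin (Tfin d).card) => MvPolynomial.rename (Sigma.mk (b j).1)
      (entC (r (b j).1) (b j).2.1 (enumM (Tfin d) s))).det
  have hDK : MvPolynomial.aeval (par c0 a0) D ≠ 0 := by
    intro h0
    apply hb
    rw [← h0]
    show _ = (MvPolynomial.aeval (par c0 a0)) (Matrix.det _)
    rw [AlgHom.map_det]
    rfl
  have hDL : MvPolynomial.aeval (par c a) D ≠ 0 := by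
    intro h0
    apply hDK
    have h1 : MvPolynomial.map (Int.castRingHom (⊥ : Subfield L)) D = 0 := by
      apply (algebraicIndependent_iff.1 hP)
      rw [← h0]
      rw [MvPolynomial.aeval_def, MvPolynomial.aeval_def, MvPolynomial.eval₂_map]
      congr 1
    have h2 : ∀ α, ((MvPolynomial.coeff α D : ℤ) : K) = 0 := by
      intro α
      have h3 := congrArg (MvPolynomial.coeff α) h1
      rw [MvPolynomial.coeff_map, MvPolynomial.coeff_zero] at h3
      have h4 : ((MvPolynomial.coeff α D : ℤ) : L) = 0 := by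
        have := congrArg (algebraMap (⊥ : Subfield L) L) h3
        simpa using this
      rw [CharP.intCast_eq_zero_iff L p] at h4
      rw [CharP.intCast_eq_zero_iff K p]
      exact h4
    have h3 : MvPolynomial.map (Int.castRingHom K) D = 0 := by
      ext α
      rw [MvPolynomial.coeff_map, MvPolynomial.coeff_zero]
      exact h2 α
    have h4 : MvPolynomial.aeval (par c0 a0) D =
        MvPolynomial.eval (par c0 a0) (MvPolynomial.map (Int.castRingHom K) D) := by
      rw [MvPolynomial.eval_map, MvPolynomial.aeval_def]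
      congr 1
    rw [h4, h3, map_zero]
  have hdet : (Matrix.of fun (j s : Fin (Tfin d).card) =>
      MvPolynomial.aeval (par c a) (MvPolynomial.rename (Sigma.mk (b j).1)
        (entC (r (b j).1) (b j).2.1 (enumM (Tfin d) s)))).det ≠ 0 := by
    intro h0
    apply hDL
    rw [← h0]
    show (MvPolynomial.aeval (par c a)) (Matrix.det _) = _
    rw [AlgHom.map_det]
    rfl
  refine noForm_iff'.2 fun v hv => ?_
  rw [mem_jets] at hv
  apply Matrix.eq_zero_of_mulVec_eq_zero hdet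
  funext j
  rw [Matrix.mulVec, dotProduct, Pi.zero_apply]
  exact hv (b j)

end transfer

section generic
variable {ι : Type} [Fintype ι] {r : ι → ℕ} {k : Type u} [Field k] {c : ι → k}
  {a : ∀ i, Fin (r i) → k}

/-- no forms on generic unions of collisions -/
theorem noForm_generic (hr : ∀ i, 1 ≤ r i)
    (hP : AlgebraicIndependent (⊥ : Subfield k) (par c a)) {m : ι → ℕ} (hm : ∃ i, 0 < m i)
    {d : ℕ} (hd : Cond r m d) : NoForm (jets m c a) d := by
  obtain ⟨p, hp⟩ := CharP.exists k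
  have hp' : p = 0 ∨ p.Prime := (CharP.char_is_prime_or_zero k p).symm
  have hS : 0 < ∑ i, r i * m i := by
    obtain ⟨i, hi⟩ := hm
    exact lt_of_lt_of_le (Nat.mul_pos (hr i) hi)
      (Finset.single_le_sum (f := fun i => r i * m i) (fun _ _ => Nat.zero_le _)
        (Finset.mem_univ i))
  obtain ⟨L, _, _, c0, a0, h0⟩ := exists_config hp' hr hS hd
  exact transfer_generic p h0 hP

/-- the form exists by counting constants -/
theorem exists_form_of_card {m : ι → ℕ} {d : ℕ}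
    (h : ∑ i, r i * m i * (m i + 1) < (d + 1) * (d + 2)) : ¬ NoForm (jets m c a) d := by
  classical
  intro hN
  obtain ⟨b, hb⟩ := Pool.Agent.TH15.Nag.exists_rows
    (fun (q : Σ i, EE (r i) (m i)) (s : Fin (Tfin d).card) =>
      MvPolynomial.aeval (par c a)
        (MvPolynomial.rename (Sigma.mk q.1) (entC (r q.1) q.2.1 (enumM (Tfin d) s)))) (by
    intro v hv
    exact noForm_iff'.1 hN v ((mem_jets _ v).2 hv))
  have hinj : Function.Injective b := by
    intro i j hij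
    by_contra hne
    apply hb
    refine Matrix.det_zero_of_row_eq hne ?_
    funext s
    exact congrArg (fun q : Σ i, EE (r i) (m i) => MvPolynomial.aeval (par c a)
      (MvPolynomial.rename (Sigma.mk q.1) (entC (r q.1) q.2.1 (enumM (Tfin d) s)))) hij
  have h1 := Fintype.card_le_of_injective b hinj
  rw [Fintype.card_fin, Fintype.card_sigma] at h1
  simp only [Fintype.card_coe] at h1
  have h2 := card_Tfin d
  have h3 : 2 * ∑ i, (EE (r i) (m i)).card = ∑ i, r i * m i * (m i + 1) := by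
    rw [Finset.mul_sum]
    exact Finset.sum_congr rfl fun i _ => card_EE _ _
  omega

/-- the least degree -/
noncomputable def ldeg (c : ι → k) (a : ∀ i, Fin (r i) → k) (m : ℕ) : ℕ :=
  sInf {d | ∃ P : MvPolynomial (Fin 3) k, P.IsHomogeneous d ∧ P ≠ 0 ∧
    ∀ i, (MvPolynomial.aeval ![C X, X, 1] P : k[X][X]) ∈
      (Ideal.span {X - C (∑ j : Fin (r i), C (a i j) * X ^ (j : ℕ)), C ((X - C (c i)) ^ r i)} :
        Ideal k[X][X]) ^ m}

omit [Fintype ι] in
theorem not_noForm_iff {m : ι → ℕ} {d : ℕ} :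
    ¬ NoForm (jets m c a) d ↔ ∃ P : MvPolynomial (Fin 3) k, P.IsHomogeneous d ∧ P ≠ 0 ∧
    ∀ i, (MvPolynomial.aeval ![C X, X, 1] P : k[X][X]) ∈
      (Ideal.span {X - C (∑ j : Fin (r i), C (a i j) * X ^ (j : ℕ)), C ((X - C (c i)) ^ r i)} :
        Ideal k[X][X]) ^ m i := by
  unfold NoForm
  push Not
  constructor
  · rintro ⟨P, hP, h, hne⟩
    exact ⟨P, (MvPolynomial.mem_homogeneousSubmodule _ _).1 hP, hne, mem_jets_iff.1 h⟩
  · rintro ⟨P, hP, hne, h⟩
    exact ⟨P, (MvPolynomial.mem_homogeneousSubmodule _ _).2 hP, mem_jets_iff.2 h, hne⟩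

omit [Fintype ι] in
theorem ldeg_set (m : ℕ) : {d | ∃ P : MvPolynomial (Fin 3) k, P.IsHomogeneous d ∧ P ≠ 0 ∧
    ∀ i, (MvPolynomial.aeval ![C X, X, 1] P : k[X][X]) ∈
      (Ideal.span {X - C (∑ j : Fin (r i), C (a i j) * X ^ (j : ℕ)), C ((X - C (c i)) ^ r i)} :
        Ideal k[X][X]) ^ m} = {d | ¬ NoForm (jets (fun _ => m) c a) d} := by
  ext d
  exact (not_noForm_iff (m := fun _ => m)).symm

theorem sum_mul_const (r : ι → ℕ) (m : ℕ) : ∑ i, r i * (fun _ : ι => m) i = (∑ i, r i) * m := by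
  rw [Finset.sum_mul]

theorem ldeg_le (m : ℕ) :
    (ldeg c a m : ℝ) ≤ Real.sqrt ((∑ i, r i : ℕ) : ℝ) * (m + 1) := by
  obtain ⟨n, hn⟩ : ∃ n, n = ∑ i, r i := ⟨_, rfl⟩
  rw [← hn]
  have hpos : 0 ≤ Real.sqrt (n : ℝ) * (m + 1) := by positivity
  refine le_trans ?_ (Nat.floor_le hpos)
  obtain ⟨d, hd⟩ : ∃ d, d = ⌊Real.sqrt (n : ℝ) * (m + 1)⌋₊ := ⟨_, rfl⟩
  rw [← hd]
  have h1 : Real.sqrt (n : ℝ) * (m + 1) < d + 1 := by
    rw [hd]
    exact Nat.lt_floor_add_one _
  have h2 : (n : ℝ) * (m + 1) ^ 2 < (d + 1) ^ 2 := by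
    have h3 : (Real.sqrt (n : ℝ) * (m + 1)) ^ 2 < ((d : ℝ) + 1) ^ 2 :=
      pow_lt_pow_left₀ h1 hpos (by norm_num)
    rwa [mul_pow, Real.sq_sqrt (Nat.cast_nonneg n)] at h3
  have h4 : n * (m + 1) ^ 2 < (d + 1) ^ 2 := by exact_mod_cast h2
  have h5 : ∑ i, r i * m * (m + 1) < (d + 1) * (d + 2) := by
    have h6 : ∑ i, r i * m * (m + 1) = n * m * (m + 1) := by
      rw [hn, Finset.sum_mul, Finset.sum_mul]
    rw [h6]
    nlinarith
  have h7 : d ∈ {d | ¬ NoForm (jets (fun _ => m) c a) d} :=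
    exists_form_of_card (m := fun _ => m) h5
  rw [← ldeg_set] at h7
  exact_mod_cast Nat.sInf_le h7

theorem ldeg_mem (m : ℕ) : ¬ NoForm (jets (fun _ => m) c a) (ldeg c a m) := by
  have h := Nat.sInf_mem (s := {d | ¬ NoForm (jets (fun _ => m) c a) d}) ⟨∑ i, r i * m * (m + 1),
    exists_form_of_card (m := fun _ => m) (by
      obtain ⟨S, hS⟩ : ∃ S, S = ∑ i, r i * m * (m + 1) := ⟨_, rfl⟩
      show ∑ i, r i * m * (m + 1) < _
      rw [← hS]
      nlinarith)⟩
  have e : ldeg c a m = sInf {d | ¬ NoForm (jets (fun _ => m) c a) d} := by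
    rw [← ldeg_set]
    rfl
  rw [e]
  exact h

theorem le_ldeg (hr : ∀ i, 1 ≤ r i) (h9 : 9 ≤ ∑ i, r i)
    (hP : AlgebraicIndependent (⊥ : Subfield k) (par c a)) (m : ℕ) :
    Real.sqrt ((∑ i, r i : ℕ) : ℝ) * m ≤ ldeg c a m := by
  rcases Nat.eq_zero_or_pos m with rfl | hm
  · simp
  by_contra hcon
  rw [not_le] at hcon
  have hι : Nonempty ι := by
    by_contra h0
    rw [not_nonempty_iff] at h0
    simp at h9
  obtain ⟨i0⟩ := hι
  refine ldeg_mem (c := c) (a := a) m (noForm_generic hr hP (m := fun _ => m) ⟨i0, hm⟩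
    (Or.inl ⟨h9, ?_⟩))
  rw [sum_mul_const]
  obtain ⟨n, hn⟩ : ∃ n, n = ∑ i, r i := ⟨_, rfl⟩
  rw [← hn] at hcon h9 ⊢
  have hn0 : (0 : ℝ) < n := by exact_mod_cast (by omega : 0 < n)
  have hs : 0 < Real.sqrt (n : ℝ) := Real.sqrt_pos.2 hn0
  have hss : Real.sqrt (n : ℝ) * Real.sqrt n = n := Real.mul_self_sqrt hn0.le
  push_cast
  calc Real.sqrt (n : ℝ) * (ldeg c a m : ℝ) < Real.sqrt (n : ℝ) * (Real.sqrt (n : ℝ) * m) :=
        mul_lt_mul_of_pos_left hcon hs
    _ = n * m := by rw [← mul_assoc, hss]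

theorem lt_ldeg (hr : ∀ i, 1 ≤ r i) (h9 : 9 < ∑ i, r i)
    (hP : AlgebraicIndependent (⊥ : Subfield k) (par c a)) {m : ℕ} (hm : 0 < m) :
    Real.sqrt ((∑ i, r i : ℕ) : ℝ) * m < ldeg c a m := by
  by_contra hcon
  rw [not_lt] at hcon
  have hι : Nonempty ι := by
    by_contra h0
    rw [not_nonempty_iff] at h0
    simp at h9
  obtain ⟨i0⟩ := hι
  refine ldeg_mem (c := c) (a := a) m (noForm_generic hr hP (m := fun _ => m) ⟨i0, hm⟩
    (Or.inr ⟨h9, ?_⟩))
  rw [sum_mul_const]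
  obtain ⟨n, hn⟩ : ∃ n, n = ∑ i, r i := ⟨_, rfl⟩
  rw [← hn] at hcon h9 ⊢
  have hn0 : (0 : ℝ) < n := by exact_mod_cast (by omega : 0 < n)
  have hs : 0 < Real.sqrt (n : ℝ) := Real.sqrt_pos.2 hn0
  have hss : Real.sqrt (n : ℝ) * Real.sqrt n = n := Real.mul_self_sqrt hn0.le
  push_cast
  calc Real.sqrt (n : ℝ) * (ldeg c a m : ℝ) ≤ Real.sqrt (n : ℝ) * (Real.sqrt (n : ℝ) * m) :=
        mul_le_mul_of_nonneg_left hcon hs.le
    _ = n * m := by rw [← mul_assoc, hss]

theorem tendsto_ldeg (hr : ∀ i, 1 ≤ r i) (h9 : 9 ≤ ∑ i, r i)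
    (hP : AlgebraicIndependent (⊥ : Subfield k) (par c a)) :
    Tendsto (fun m : ℕ => (ldeg c a m : ℝ) / m) atTop
      (𝓝 (Real.sqrt ((∑ i, r i : ℕ) : ℝ))) := by
  obtain ⟨s, hs⟩ : ∃ s, s = Real.sqrt ((∑ i, r i : ℕ) : ℝ) := ⟨_, rfl⟩
  have h1 : ∀ m : ℕ, 0 < m → s ≤ (ldeg c a m : ℝ) / m := by
    intro m hm
    rw [le_div_iff₀ (by exact_mod_cast hm), hs]
    exact le_ldeg hr h9 hP m
  have h2 : ∀ m : ℕ, 0 < m → (ldeg c a m : ℝ) / m ≤ s + s / m := by
    intro m hm
    have hm' : (0 : ℝ) < m := by exact_mod_cast hm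
    rw [div_le_iff₀ hm', add_mul, div_mul_cancel₀ _ hm'.ne', hs]
    have := ldeg_le (c := c) (a := a) m
    linarith
  rw [← hs]
  refine tendsto_of_tendsto_of_tendsto_of_le_of_le' tendsto_const_nhds
    (?_ : Tendsto (fun m : ℕ => s + s / m) atTop (𝓝 s)) ?_ ?_
  · have := (tendsto_const_div_atTop_nhds_zero_nat s).const_add s
    rwa [add_zero] at this
  · filter_upwards [eventually_gt_atTop 0] with m hm using h1 m hm
  · filter_upwards [eventually_gt_atTop 0] with m hm using h2 m hm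

end generic

end Pool.Agent.Y939.SC
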